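import Pool.Agent.R634.HLoc.Main

/-!
MP_09a4e8_an, Q1.  If `non(N) < cov(N)` (which holds, for example, in the random real model), then
for every `0 < d < 1` the measure space `([0,1], A_{H^d}, H^d)` is not semilocalizable.

* `X` is the unit interval as a metric space, `μH[d]` its `d`-dimensional Hausdorff (outer) measure.
* `CaraMeasurable d S`: `S` is Carathéodory `H^d`-measurable.
* `LocNull d Z`: `Z` is measurable and meets each measurable set of finite measure in a null set.
* `Semilocalizable d`: every family of measurable sets has a supremum modulo locally null sets.
* `nonN`, `covN`: the uniformity and covering numbers of the Lebesgue null ideal of `ℝ`.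
-/

namespace Pool.Agent.Results.MP_09a4e8_an.NotSemilocalizable

open Pool.Agent.R634.HLoc

theorem result (h : nonN < covN) (d : ℝ) (hd : 0 < d) (hd1 : d < 1) : ¬ Semilocalizable d :=
  main h d hd hd1

end Pool.Agent.Results.MP_09a4e8_an.NotSemilocalizable
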